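import Pool.Agent.ISB.StmtsA

/-!
# Squad ISB, row KRK: Kreknin's theorem with nilpotent action of the fixed points
-/

set_option autoImplicit false

open scoped Classical commutatorElement

namespace Pool.Agent.ISB.H52

theorem krk (idl : IdlStmt) (gn : GenStmt) (krc : KrcStmt) : KrkStmt := by
  intro F L _ _ _ r n σ ζ hA A hS hH
  obtain ⟨i1, i2, -, i4⟩ := idl F L A hS.cl
  have hD : ∀ s, dr A s ≤ A := fun s => i1 0 s (Nat.zero_le s)
  have hst : ∀ s, ∀ a ∈ dr A s, σ a ∈ dr A s := i4 σ hA.lie hS.st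
  have key : ∀ k, k ≤ r → ∀ s, dr A (fk n k s) ≤ gen σ ζ r (dr A s) k := by
    intro k
    induction k with
    | zero =>
      intro _ s
      exact (gn F L r σ ζ hA A (dr A s) (hD s) (i2 s) (hst s)).2.1
    | succ k ih =>
      intro hk s
      exact krc F L r n σ ζ hA A hS hH k (Nat.lt_of_succ_le hk) (ih (Nat.le_of_succ_le hk)) s
  have h := key r (le_refl r) 0
  rw [(gn F L r σ ζ hA A (dr A 0) (hD 0) (i2 0) (hst 0)).2.2.1] at h
  exact le_bot_iff.1 h

end Pool.Agent.ISB.H52
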